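import Mathlib
import Pool.Agent.Helper52.HicDefs
import Pool.Agent.Helper52.JtFinal

set_option autoImplicit false

open Pool.Agent.Helper52.Hic

/-- For every `p > 1` there is a separable Banach space (the James tree space over the dyadic
tree with exponent `p`) with property `HIC_{p,d}` whose dual is not separable, so that it is not
an Asplund space. -/
theorem Pool.Agent.Results.MP_a1676c_an.JamesTreeHIC.result :
    ∀ p : ℝ, 1 < p →
      ∃ (X : Type) (_ : NormedAddCommGroup X) (_ : NormedSpace ℝ X), CompleteSpace X ∧
        ¬ FiniteDimensional ℝ X ∧ HIC p X ∧ TopologicalSpace.SeparableSpace X ∧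
        ¬ TopologicalSpace.SeparableSpace (StrongDual ℝ X) ∧ ¬ IsAsplund X :=
  Pool.Agent.Helper52.JamesTree.exists_space
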